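import Pool.Agent.H18.CGR.Stmts

/-!
Rows LNW, TRA, JDQ of the board cgr (MP_286349_an).
-/

set_option autoImplicit false

noncomputable section

namespace Pool.CGR

theorem lnw_thm (hLCM : LCMStmt) : LNWStmt := by
  intro α _ κ hκ i w
  induction w using List.reverseRecOn with
  | nil =>
    have h1 : nn κ [i] = T κ i (Finsupp.single [] 1) := rfl
    rw [h1, nn_nil, T_single, Lf_single]
    simp
  | append_singleton w j ih =>
    rw [← List.cons_append, nn_append, ih, hLCM α κ hκ, nn_append]

theorem tra_thm (hLNW : LNWStmt) (hTCO : TCOStmt) (hLCO : LCOStmt) : TRAStmt := by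
  intro α _ κ hκ i w
  rw [hLNW α κ hκ, nn_append, hTCO, hLCO]
  simp [hd, tl]

theorem jdq_thm (hLAM : LAMStmt) (hCON : CONStmt) : JDQStmt := by
  intro m k hk A _ τ hτ x hx hlaw G hG i w
  rw [hτ.comm, hLAM m k hk A τ hτ x hx hlaw G hG [i] w]
  have h1 := hCON (Fin m) (kx k) i [] [] w
  rw [List.nil_append] at h1
  rw [h1]
  unfold dq
  refine Finset.sum_congr rfl fun j _ => ?_
  simp only [hlaw]

end Pool.CGR
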