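import Pool.Agent.H18.CGR.Stmts

/-!
Rows TCO and LCO of the board cgr (MP_286349_an): coefficients of `T` and `Lf`.
-/

set_option autoImplicit false

noncomputable section

namespace Pool.CGR

section
variable {α : Type} [DecidableEq α]

omit [DecidableEq α] in
theorem tco_summable (κ : List α → ℂ) (g : List α → List α) (hg : Function.Injective g)
    (f : List α →₀ ℂ) : Summable (fun v => κ v * f (g v)) := by
  apply summable_of_hasFiniteSupport
  refine (f.hasFiniteSupport.preimage (hg.injOn)).subset ?_
  intro v hv
  rw [Set.mem_preimage, Function.mem_support]
  intro h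
  apply hv
  simp only
  rw [h, mul_zero]

theorem hd_add (i : α) (u : List α) (F G : List α → ℂ) :
    hd i u (fun w => F w + G w) = hd i u F + hd i u G := by
  cases u with
  | nil => simp [hd]
  | cons a u =>
    simp only [hd]
    split_ifs <;> simp

omit [DecidableEq α] in
/-- extension from the basis vectors -/
theorem tco_ext (A : (List α →₀ ℂ) →ₗ[ℂ] (List α →₀ ℂ)) (u : List α)
    (B : (List α →₀ ℂ) → ℂ) (hB0 : B 0 = 0) (hBa : ∀ f g, B (f + g) = B f + B g)
    (hBs : ∀ (c : ℂ) f, B (c • f) = c * B f)
    (h : ∀ U : List α, A (Finsupp.single U 1) u = B (Finsupp.single U 1)) (f : List α →₀ ℂ) :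
    A f u = B f := by
  induction f using Finsupp.induction_linear with
  | zero => rw [map_zero, Finsupp.zero_apply, hB0]
  | add f g hf hg => rw [map_add, Finsupp.add_apply, hf, hg, hBa]
  | single U c =>
    have h1 : (Finsupp.single U c : List α →₀ ℂ) = c • Finsupp.single U 1 := by
      rw [Finsupp.smul_single, smul_eq_mul, mul_one]
    rw [h1, map_smul, Finsupp.smul_apply, h, hBs, smul_eq_mul]

theorem tco_thm' (κ : α → List α → ℂ) (j : α) (f : List α →₀ ℂ) (u : List α) :
    T κ j f u = hd j u f + ∑' v : List α, κ j v * f (v ++ u) := by
  have hinj : Function.Injective (fun v : List α => v ++ u) := fun a b h =>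
    List.append_left_injective u h
  refine tco_ext (T κ j) u (fun f => hd j u f + ∑' v : List α, κ j v * f (v ++ u)) ?_ ?_ ?_ ?_ f
  · cases u <;> simp [hd]
  · intro f g
    have h1 := (tco_summable (κ j) _ hinj f).tsum_add (tco_summable (κ j) _ hinj g)
    have h2 : hd j u ⇑(f + g) = hd j u f + hd j u g := by
      rw [← hd_add]
      rfl
    rw [h2, add_add_add_comm, ← h1]
    congr 2
    ext v
    rw [Finsupp.add_apply, mul_add]
  · intro c f
    have h2 : hd j u ⇑(c • f) = c * hd j u f := by
      cases u with
      | nil => simp [hd]
      | cons a u =>
        simp only [hd]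
        split_ifs <;> simp
    rw [h2, mul_add, ← tsum_mul_left]
    congr 2
    ext v
    rw [Finsupp.smul_apply, smul_eq_mul]
    ring
  · intro U
    rw [T_single, Finsupp.add_apply]
    congr 1
    · cases u with
      | nil => simp [hd]
      | cons a u =>
        simp only [hd]
        by_cases h : a = j
        · subst h
          rw [if_pos rfl]
          by_cases h2 : U = u
          · subst h2
            simp
          · rw [Finsupp.single_eq_of_ne (fun h3 => h2 h3.symm),
              Finsupp.single_eq_of_ne (fun h3 => h2 (List.cons.inj h3).2.symm)]
        · rw [if_neg h, Finsupp.single_eq_of_ne (fun h3 => h (List.cons.inj h3).1)]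
    · rw [Finset.sum_apply']
      by_cases hU : ∃ v0 : List α, U = v0 ++ u
      · obtain ⟨v0, rfl⟩ := hU
        rw [tsum_eq_single v0, Finset.sum_eq_single v0.length]
        · simp
        · intro k hk hk2
          rw [Finset.mem_range] at hk
          apply Finsupp.single_eq_of_ne
          intro h
          apply hk2
          have h3 := congrArg List.length h
          rw [List.length_drop] at h3
          rw [List.length_append] at h3 hk
          omega
        · intro h
          exfalso
          apply h
          rw [Finset.mem_range, List.length_append]
          omega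
        · intro v hv
          rw [Finsupp.single_eq_of_ne (fun h => hv (List.append_left_injective u h)), mul_zero]
      · have h1 : (fun v : List α => κ j v * (Finsupp.single U (1 : ℂ)) (v ++ u)) = fun _ => 0 := by
          ext v
          rw [Finsupp.single_eq_of_ne (fun h => hU ⟨v, h.symm⟩), mul_zero]
        rw [h1, tsum_zero, Finset.sum_eq_zero]
        intro k hk
        apply Finsupp.single_eq_of_ne
        intro h
        apply hU
        refine ⟨U.take k, ?_⟩
        rw [h, List.take_append_drop]
theorem tl_add (i : α) (u : List α) (F G : List α → ℂ) :
    tl i u (fun w => F w + G w) = tl i u F + tl i u G := by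
  unfold tl
  rw [← hd_add]

theorem tl_smul (i : α) (u : List α) (c : ℂ) (F : List α → ℂ) :
    tl i u (fun w => c * F w) = c * tl i u F := by
  unfold tl
  cases u.reverse with
  | nil => simp [hd]
  | cons a u =>
    simp only [hd]
    split_ifs <;> simp

theorem lco_thm' (κ : α → List α → ℂ) (i : α) (f : List α →₀ ℂ) (u : List α) :
    Lf κ i f u = tl i u f + ∑' v : List α, κ i v * f (u ++ v) := by
  have hinj : Function.Injective (fun v : List α => u ++ v) := fun a b h =>
    List.append_right_injective u h
  refine tco_ext (Lf κ i) u (fun f => tl i u f + ∑' v : List α, κ i v * f (u ++ v)) ?_ ?_ ?_ ?_ f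
  · have h1 : tl i u (0 : List α → ℂ) = 0 := by
      unfold tl
      cases u.reverse <;> simp [hd]
    simp [h1]
  · intro f g
    have h1 := (tco_summable (κ i) _ hinj f).tsum_add (tco_summable (κ i) _ hinj g)
    have h2 : tl i u ⇑(f + g) = tl i u f + tl i u g := by
      rw [← tl_add]
      rfl
    rw [h2, add_add_add_comm, ← h1]
    congr 2
    ext v
    rw [Finsupp.add_apply, mul_add]
  · intro c f
    have h2 : tl i u ⇑(c • f) = c * tl i u f := by
      rw [← tl_smul]
      rfl
    rw [h2, mul_add, ← tsum_mul_left]
    congr 2
    ext v
    rw [Finsupp.smul_apply, smul_eq_mul]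
    ring
  · intro U
    rw [Lf_single, Finsupp.add_apply]
    congr 1
    · unfold tl
      rcases List.eq_nil_or_concat u with rfl | ⟨u', a, hu⟩
      · rw [Finsupp.single_eq_of_ne (by simp)]
        simp [hd]
      · rw [List.concat_eq_append] at hu
        subst hu
        rw [List.reverse_append, List.reverse_singleton, List.singleton_append]
        simp only [hd, List.reverse_reverse]
        by_cases h : a = i
        · subst h
          rw [if_pos rfl]
          by_cases h2 : U = u'
          · subst h2
            simp
          · rw [Finsupp.single_eq_of_ne (fun h3 => h2 h3.symm),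
              Finsupp.single_eq_of_ne (fun h3 => h2 (List.append_inj' h3 rfl).1.symm)]
        · rw [if_neg h, Finsupp.single_eq_of_ne (fun h3 => h (by
            have h4 := (List.append_inj' h3 rfl).2
            simpa using h4))]
    · rw [Finset.sum_apply']
      by_cases hU : ∃ v0 : List α, U = u ++ v0
      · obtain ⟨v0, rfl⟩ := hU
        rw [tsum_eq_single v0, Finset.sum_eq_single u.length]
        · simp
        · intro k hk hk2
          rw [Finset.mem_range] at hk
          apply Finsupp.single_eq_of_ne
          intro h
          apply hk2
          have h3 := congrArg List.length h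
          rw [List.length_take] at h3
          rw [List.length_append] at h3 hk
          omega
        · intro h
          exfalso
          apply h
          rw [Finset.mem_range, List.length_append]
          omega
        · intro v hv
          rw [Finsupp.single_eq_of_ne (fun h => hv (List.append_right_injective u h)), mul_zero]
      · have h1 : (fun v : List α => κ i v * (Finsupp.single U (1 : ℂ)) (u ++ v)) = fun _ => 0 := by
          ext v
          rw [Finsupp.single_eq_of_ne (fun h => hU ⟨v, h.symm⟩), mul_zero]
        rw [h1, tsum_zero, Finset.sum_eq_zero]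
        intro k hk
        apply Finsupp.single_eq_of_ne
        intro h
        apply hU
        refine ⟨U.drop k, ?_⟩
        rw [h, List.take_append_drop]

end

theorem tco_thm : TCOStmt := fun _ _ κ j f u => tco_thm' κ j f u

theorem lco_thm : LCOStmt := fun _ _ κ i f u => lco_thm' κ i f u

end Pool.CGR
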